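import Pool.Agent.helper5.IH.Spec

/-! Row TSB of project ih (MP_45d809_mp) -/

set_option autoImplicit false

namespace Pool.Agent.IH
open Finset CT SYM

theorem TSB (hCNX : SYM.CNX_stmt) (hMIN : MIN_stmt) (hEUW : EUW_stmt) (hIDP : IDP_stmt)
    (hIND : IND_stmt) (hFORM : FORM_stmt) : TSB_stmt := by
  intro V _ _ G hG hV hv τ hτ
  obtain ⟨v, hv⟩ := hv
  have hC : G.Connected := hCNX V G v hG hV hv
  obtain ⟨τ', S, h1, h2, h3, h4⟩ := hMIN V G τ hG hC hτ
  obtain ⟨m, q, hq, hF⟩ := hEUW V G τ' h1 h2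
  obtain ⟨h5, h6⟩ := hIDP V G m q τ τ' S hG hq hτ h1 hF h3
  by_contra hc
  rw [not_le] at hc
  have h7 : Fintype.card V < 2 * S.card := by omega
  have h8 := hIND V (IG m q) S (h6 h4) h7
  have h9 := hFORM V G m q v hG (by omega) hq
  rw [h8] at h9
  exact hv (by simpa using h9)

end Pool.Agent.IH
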